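import Mathlib

set_option autoImplicit false

open Polynomial

namespace Pool.Agent.Lib.MP_21a1fd_an

/-- `Q` has no zero in the open upper half plane. -/
def Stab (Q : ℂ[X]) : Prop := ∀ z : ℂ, 0 < z.im → Q.eval z ≠ 0

/-- Harnack-type inequality for polynomials without zeros in the upper half plane. -/
theorem Stab.norm_eval_le {Q : ℂ[X]} (hQ : Stab Q) {n : ℕ} (hn : Q.natDegree ≤ n)
    {z0 z1 : ℂ} (h0 : 0 < z0.im) :
    ‖Q.eval z1‖ ≤ (1 + ‖z1 - z0‖ / z0.im) ^ n * ‖Q.eval z0‖ := by
  set K : ℝ := 1 + ‖z1 - z0‖ / z0.im with hK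
  have hK1 : 1 ≤ K := by
    have : 0 ≤ ‖z1 - z0‖ / z0.im := by positivity
    linarith
  have hs : Q.Splits := IsAlgClosed.splits Q
  have hroot : ∀ ζ ∈ Q.roots, ‖z1 - ζ‖ ≤ K * ‖z0 - ζ‖ := by
    intro ζ hζ
    have hQ0 : Q ≠ 0 := by
      rintro rfl
      simp at hζ
    have hz : Q.eval ζ = 0 := (Polynomial.mem_roots hQ0).1 hζ
    have him : ζ.im ≤ 0 := by
      by_contra h
      exact hQ ζ (not_le.1 h) hz
    have h1 : z0.im ≤ ‖z0 - ζ‖ := by
      have h2 : (z0 - ζ).im ≤ ‖z0 - ζ‖ := (le_abs_self _).trans (Complex.abs_im_le_norm _)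
      simp only [Complex.sub_im] at h2
      linarith
    have h3 : ‖z1 - ζ‖ ≤ ‖z1 - z0‖ + ‖z0 - ζ‖ := by
      have : z1 - ζ = (z1 - z0) + (z0 - ζ) := by ring
      rw [this]
      exact norm_add_le _ _
    have h4 : ‖z1 - z0‖ ≤ ‖z1 - z0‖ / z0.im * ‖z0 - ζ‖ := by
      rw [div_mul_eq_mul_div, le_div_iff₀ h0]
      exact mul_le_mul_of_nonneg_left h1 (norm_nonneg _)
    rw [hK, add_mul, one_mul]
    linarith
  have hprod : ∀ s : Multiset ℂ, (∀ ζ ∈ s, ‖z1 - ζ‖ ≤ K * ‖z0 - ζ‖) →
      ‖(s.map (z1 - ·)).prod‖ ≤ K ^ s.card * ‖(s.map (z0 - ·)).prod‖ := by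
    intro s
    induction s using Multiset.induction_on with
    | empty => intro _; simp
    | cons a s ih =>
      intro h
      have ha := h a (Multiset.mem_cons_self a s)
      have hs' := ih (fun ζ hζ => h ζ (Multiset.mem_cons_of_mem hζ))
      simp only [Multiset.map_cons, Multiset.prod_cons, norm_mul, Multiset.card_cons]
      calc ‖z1 - a‖ * ‖(s.map (z1 - ·)).prod‖
          ≤ (K * ‖z0 - a‖) * (K ^ s.card * ‖(s.map (z0 - ·)).prod‖) := by
            gcongr
        _ = K ^ (s.card + 1) * (‖z0 - a‖ * ‖(s.map (z0 - ·)).prod‖) := by ring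
  rw [hs.eval_eq_prod_roots z1, hs.eval_eq_prod_roots z0, norm_mul, norm_mul]
  have hc : Q.roots.card ≤ n := (Polynomial.card_roots' Q).trans hn
  calc ‖Q.leadingCoeff‖ * ‖(Q.roots.map (z1 - ·)).prod‖
      ≤ ‖Q.leadingCoeff‖ * (K ^ Q.roots.card * ‖(Q.roots.map (z0 - ·)).prod‖) := by
        gcongr
        exact hprod _ hroot
    _ ≤ ‖Q.leadingCoeff‖ * (K ^ n * ‖(Q.roots.map (z0 - ·)).prod‖) := by
        gcongr
    _ = K ^ n * (‖Q.leadingCoeff‖ * ‖(Q.roots.map (z0 - ·)).prod‖) := by ring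

/-- A pointwise limit of stable polynomials of bounded degree is zero or stable. -/
theorem stab_of_tendsto {Q : ℂ[X]} {Qs : ℕ → ℂ[X]} {n : ℕ} (hs : ∀ N, Stab (Qs N))
    (hn : ∀ N, (Qs N).natDegree ≤ n)
    (hlim : ∀ z, Filter.Tendsto (fun N => (Qs N).eval z) Filter.atTop (nhds (Q.eval z))) :
    Q = 0 ∨ Stab Q := by
  by_contra hcon
  push Not at hcon
  obtain ⟨hQ0, hQs⟩ := hcon
  unfold Stab at hQs
  push Not at hQs
  obtain ⟨z0, hz0, hz⟩ := hQs
  apply hQ0
  have key : ∀ z1 : ℂ, Q.eval z1 = 0 := by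
    intro z1
    have h1 : Filter.Tendsto (fun N => ‖(Qs N).eval z1‖) Filter.atTop (nhds ‖Q.eval z1‖) :=
      (hlim z1).norm
    have h2 : Filter.Tendsto (fun N => (1 + ‖z1 - z0‖ / z0.im) ^ n * ‖(Qs N).eval z0‖)
        Filter.atTop (nhds ((1 + ‖z1 - z0‖ / z0.im) ^ n * ‖Q.eval z0‖)) :=
      ((hlim z0).norm).const_mul _
    have h3 := le_of_tendsto_of_tendsto' h1 h2 (fun N => (hs N).norm_eval_le (hn N) hz0)
    rw [hz, norm_zero, mul_zero] at h3
    exact norm_le_zero_iff.1 h3
  exact Polynomial.funext (by simpa using key)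

/-- `A ↦ A + βx A'` preserves stability for `x` in the upper half plane, `β ≥ 0`. -/
theorem Stab.add_smul_derivative {A : ℂ[X]} (hA : Stab A) {x : ℂ} (hx : 0 < x.im)
    {β : ℝ} (hβ : 0 ≤ β) : Stab (A + C ((β : ℂ) * x) * derivative A) := by
  intro z hz h
  have hAz : A.eval z ≠ 0 := hA z hz
  have hA0 : A ≠ 0 := by
    rintro rfl
    simp at hAz
  have hs : A.Splits := IsAlgClosed.splits A
  have h1 := hs.eval_derivative_eq_eval_mul_sum hAz
  simp only [eval_add, eval_mul, eval_C] at h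
  rw [h1] at h
  set S : ℂ := (A.roots.map fun ζ ↦ 1 / (z - ζ)).sum with hS
  have h2 : 1 + (β : ℂ) * x * S = 0 := by
    have : A.eval z * (1 + (β : ℂ) * x * S) = 0 := by
      rw [← h]; ring
    rcases mul_eq_zero.1 this with h3 | h3
    · exact absurd h3 hAz
    · exact h3
  -- imaginary part of each term of S is negative
  have hterm : ∀ ζ ∈ A.roots, (1 / (z - ζ)).im < 0 := by
    intro ζ hζ
    have hz' : A.eval ζ = 0 := (Polynomial.mem_roots hA0).1 hζ
    have him : ζ.im ≤ 0 := by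
      by_contra h
      exact hA ζ (not_le.1 h) hz'
    have hne : z - ζ ≠ 0 := by
      intro h0
      have : (z - ζ).im = 0 := by rw [h0]; simp
      simp only [Complex.sub_im] at this
      linarith
    rw [one_div, Complex.inv_im]
    have hns : 0 < Complex.normSq (z - ζ) := Complex.normSq_pos.2 hne
    rw [neg_div]
    apply neg_neg_of_pos
    apply div_pos _ hns
    simp only [Complex.sub_im]
    linarith
  have hsum : ∀ s : Multiset ℂ, (∀ ζ ∈ s, (1 / (z - ζ)).im < 0) →
      (s = 0 ∧ (s.map fun ζ ↦ 1 / (z - ζ)).sum = 0) ∨ ((s.map fun ζ ↦ 1 / (z - ζ)).sum).im < 0 := by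
    intro s
    induction s using Multiset.induction_on with
    | empty => intro _; left; simp
    | cons a s ih =>
      intro h
      right
      have ha := h a (Multiset.mem_cons_self a s)
      rcases ih (fun ζ hζ => h ζ (Multiset.mem_cons_of_mem hζ)) with ⟨_, h0⟩ | h0
      · rw [Multiset.map_cons, Multiset.sum_cons, h0, add_zero]
        exact ha
      · rw [Multiset.map_cons, Multiset.sum_cons, Complex.add_im]
        linarith
  rcases hsum _ hterm with ⟨_, h0⟩ | h0
  · rw [← hS] at h0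
    rw [h0] at h2
    simp at h2
  · rw [← hS] at h0
    -- S in lower half plane, x in the upper half plane, β x S = -1 impossible
    have hβx : (β : ℂ) * x * S = -1 := by linear_combination h2
    have hSne : S ≠ 0 := by
      intro hS0
      rw [hS0] at h0
      simp at h0
    have h3 : (β : ℂ) * x = -S⁻¹ := by
      field_simp
      linear_combination hβx
    have h4 : ((β : ℂ) * x).im = β * x.im := by simp
    have h5 : (-S⁻¹).im = S.im / Complex.normSq S := by
      rw [Complex.neg_im, Complex.inv_im]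
      ring
    have h6 : 0 ≤ ((β : ℂ) * x).im := by rw [h4]; positivity
    rw [h3, h5] at h6
    have h7 : S.im / Complex.normSq S < 0 := div_neg_of_neg_of_pos h0 (Complex.normSq_pos.2 hSne)
    linarith


/-- The differentiation operator as an endomorphism. -/
noncomputable def Dop : Module.End ℂ ℂ[X] := Polynomial.derivative

theorem Dop_pow_apply (k : ℕ) (A : ℂ[X]) : (Dop ^ k) A = derivative^[k] A := by
  rw [Module.End.pow_apply]
  rfl

/-- `∑ b_k x^k A^{(k)}(z)` as a polynomial in `x`. -/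
noncomputable def Spol (b : ℕ → ℝ) (A : ℂ[X]) (z : ℂ) : ℂ[X] :=
  ∑ k ∈ Finset.range (A.natDegree + 1), C ((b k : ℂ) * (derivative^[k] A).eval z) * X ^ k

theorem Spol_natDegree_le (b : ℕ → ℝ) (A : ℂ[X]) (z : ℂ) :
    (Spol b A z).natDegree ≤ A.natDegree := by
  unfold Spol
  refine Polynomial.natDegree_sum_le_of_forall_le _ _ ?_
  intro k hk
  rw [Finset.mem_range] at hk
  exact (Polynomial.natDegree_C_mul_X_pow_le _ _).trans (by omega)

theorem Spol_eval (b : ℕ → ℝ) (A : ℂ[X]) (z x : ℂ) :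
    (Spol b A z).eval x =
      ∑ k ∈ Finset.range (A.natDegree + 1), (b k : ℂ) * x ^ k * (derivative^[k] A).eval z := by
  unfold Spol
  rw [Polynomial.eval_finsetSum]
  refine Finset.sum_congr rfl ?_
  intro k _
  simp only [eval_mul, eval_C, eval_pow, eval_X]
  ring

/-- The operator `B(x D)`. -/
noncomputable def Wop (B : ℝ[X]) (x : ℂ) : Module.End ℂ ℂ[X] :=
  Polynomial.aeval (x • Dop) (B.map Complex.ofRealHom)

theorem Wop_mul (B1 B2 : ℝ[X]) (x : ℂ) : Wop (B1 * B2) x = Wop B1 x * Wop B2 x := by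
  unfold Wop
  rw [Polynomial.map_mul, map_mul]

theorem Wop_linear (β : ℝ) (x : ℂ) (A : ℂ[X]) :
    Wop (1 + C β * X) x A = A + C ((β : ℂ) * x) * derivative A := by
  unfold Wop
  simp only [Polynomial.map_add, Polynomial.map_one, Polynomial.map_mul, Polynomial.map_C,
    Polynomial.map_X, map_add, map_one, map_mul, aeval_C, aeval_X]
  simp only [LinearMap.add_apply, Module.End.one_apply, Module.End.mul_apply,
    LinearMap.smul_apply, Module.algebraMap_end_apply]
  have : (Dop A) = derivative A := rfl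
  rw [this, smul_smul, Polynomial.smul_eq_C_mul]
  simp

theorem Wop_C (c : ℝ) (x : ℂ) (A : ℂ[X]) : Wop (C c) x A = C (c : ℂ) * A := by
  unfold Wop
  simp only [Polynomial.map_C, aeval_C, Module.algebraMap_end_apply]
  rw [Polynomial.smul_eq_C_mul]
  rfl

theorem Wop_eval (B : ℝ[X]) (x z : ℂ) (A : ℂ[X]) :
    (Wop B x A).eval z = (Spol (fun k => B.coeff k) A z).eval x := by
  unfold Wop
  rw [Spol_eval]
  set m := max (B.natDegree + 1) (A.natDegree + 1) with hm
  have h1 : Polynomial.aeval (x • Dop) (B.map Complex.ofRealHom)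
      = ∑ i ∈ Finset.range m, (B.map Complex.ofRealHom).coeff i • (x • Dop) ^ i := by
    apply Polynomial.aeval_eq_sum_range'
    have : (B.map Complex.ofRealHom).natDegree ≤ B.natDegree := Polynomial.natDegree_map_le
    omega
  rw [h1]
  have h2 : ∑ k ∈ Finset.range (A.natDegree + 1), (B.coeff k : ℂ) * x ^ k *
      (derivative^[k] A).eval z = ∑ k ∈ Finset.range m, (B.coeff k : ℂ) * x ^ k *
      (derivative^[k] A).eval z := by
    apply Finset.sum_subset
    · intro i hi
      rw [Finset.mem_range] at hi ⊢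
      exact lt_of_lt_of_le hi (le_max_right _ _)
    · intro i _ hi
      rw [Finset.mem_range, not_lt] at hi
      rw [Polynomial.iterate_derivative_eq_zero (by omega)]
      simp
  rw [h2, LinearMap.sum_apply, Polynomial.eval_finsetSum]
  refine Finset.sum_congr rfl ?_
  intro k _
  rw [_root_.smul_pow, LinearMap.smul_apply, LinearMap.smul_apply, Dop_pow_apply]
  simp only [Polynomial.coeff_map, Polynomial.eval_smul, smul_eq_mul]
  change (B.coeff k : ℂ) * (x ^ k * _) = _
  ring

/-- `B` is a positive constant times a product of factors `1 + β X`, `β ≥ 0`. -/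
def NegRooted (B : ℝ[X]) : Prop :=
  ∃ (c : ℝ) (s : Multiset ℝ), c ≠ 0 ∧ (∀ β ∈ s, 0 ≤ β) ∧
    B = C c * (s.map (fun β => 1 + C β * X)).prod

theorem Wop_stab {B : ℝ[X]} (hB : NegRooted B) {A : ℂ[X]} (hA : Stab A) {x : ℂ}
    (hx : 0 < x.im) : Stab (Wop B x A) := by
  obtain ⟨c, s, hc, hs, rfl⟩ := hB
  rw [Wop_mul, Module.End.mul_apply, Wop_C]
  have key : Stab (Wop (s.map (fun β => 1 + C β * X)).prod x A) := by
    induction s using Multiset.induction_on with
    | empty =>
      simp only [Multiset.map_zero, Multiset.prod_zero]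
      have : Wop 1 x = 1 := by
        unfold Wop
        simp
      rw [this]
      exact hA
    | cons a s ih =>
      simp only [Multiset.map_cons, Multiset.prod_cons]
      rw [Wop_mul, Module.End.mul_apply, Wop_linear]
      exact (ih (fun β hβ => hs β (Multiset.mem_cons_of_mem hβ))).add_smul_derivative hx
        (hs a (Multiset.mem_cons_self a s))
  intro z hz
  rw [eval_mul, eval_C]
  exact mul_ne_zero (by exact_mod_cast hc) (key z hz)

theorem Spol_stab {B : ℝ[X]} (hB : NegRooted B) {A : ℂ[X]} (hA : Stab A) {z : ℂ}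
    (hz : 0 < z.im) : Stab (Spol (fun k => B.coeff k) A z) := by
  intro x hx
  rw [← Wop_eval]
  exact Wop_stab hB hA hx z hz

/-- Composition theorem, in the limit form that we need. -/
theorem composition_limit {b : ℕ → ℝ} {Bs : ℕ → ℝ[X]} (hB : ∀ N, NegRooted (Bs N))
    (hlim : ∀ k, Filter.Tendsto (fun N => (Bs N).coeff k) Filter.atTop (nhds (b k)))
    {A : ℂ[X]} (hA : Stab A) : Spol b A 0 = 0 ∨ Stab (Spol b A 0) := by
  have hz : Filter.Tendsto (fun N : ℕ => ((1 / ((N : ℝ) + 1) : ℝ) : ℂ) * Complex.I)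
      Filter.atTop (nhds 0) := by
    have h1 : Filter.Tendsto (fun N : ℕ => (1 / ((N : ℝ) + 1) : ℝ)) Filter.atTop (nhds 0) :=
      tendsto_one_div_add_atTop_nhds_zero_nat
    have h2 : Filter.Tendsto (fun N : ℕ => ((1 / ((N : ℝ) + 1) : ℝ) : ℂ)) Filter.atTop
        (nhds ((0 : ℝ) : ℂ)) := (Complex.continuous_ofReal.tendsto 0).comp h1
    have h3 := h2.mul_const Complex.I
    simpa using h3
  refine stab_of_tendsto (n := A.natDegree)
    (Qs := fun N => Spol (fun k => (Bs N).coeff k) A (((1 / ((N : ℝ) + 1) : ℝ) : ℂ) * Complex.I))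
    ?_ ?_ ?_
  · intro N
    apply Spol_stab (hB N) hA
    simp only [Complex.mul_im, Complex.ofReal_re, Complex.I_im, mul_one, Complex.ofReal_im,
      Complex.I_re, mul_zero, add_zero]
    positivity
  · intro N
    exact Spol_natDegree_le _ _ _
  · intro x
    simp only [Spol_eval]
    apply tendsto_finsetSum
    intro k _
    apply Filter.Tendsto.mul
    · apply Filter.Tendsto.mul_const
      exact (Complex.continuous_ofReal.tendsto _).comp (hlim k)
    · have hc : Continuous (fun z : ℂ => (derivative^[k] A).eval z) := Polynomial.continuous _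
      exact (hc.tendsto 0).comp hz

end Pool.Agent.Lib.MP_21a1fd_an
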