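import Mathlib
import Pool.Agent.Lib.MP_21a1fd_an.Stable

set_option autoImplicit false

open Polynomial

namespace Pool.Agent.Lib.MP_21a1fd_an

/-- Chebyshev-type polynomials: `P k (2 cos t - 2) * sin t = sin (k t)`. -/
noncomputable def P : ℕ → ℝ[X]
  | 0 => 0
  | 1 => 1
  | (k + 2) => (C 2 + X) * P (k + 1) - P k

theorem P_eval_mul_sin (t : ℝ) : ∀ k : ℕ,
    (P k).eval (2 * Real.cos t - 2) * Real.sin t = Real.sin (k * t)
  | 0 => by simp [P]
  | 1 => by simp [P]
  | (k + 2) => by
    have h1 := P_eval_mul_sin t (k + 1)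
    have h0 := P_eval_mul_sin t k
    have h2 : (P (k + 2)).eval (2 * Real.cos t - 2) * Real.sin t
        = 2 * Real.cos t * ((P (k + 1)).eval (2 * Real.cos t - 2) * Real.sin t)
          - (P k).eval (2 * Real.cos t - 2) * Real.sin t := by
      simp only [P, eval_sub, eval_mul, eval_add, eval_C, eval_X]
      ring
    rw [h2, h1, h0]
    push_cast
    have e1 : ((k : ℝ) + 2) * t = ((k : ℝ) + 1) * t + t := by ring
    have e0 : (k : ℝ) * t = ((k : ℝ) + 1) * t - t := by ring
    rw [e1, e0, Real.sin_add, Real.sin_sub]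
    ring

theorem P_natDegree_le : ∀ k : ℕ, (P (k + 1)).natDegree ≤ k
  | 0 => by simp [P]
  | 1 => by
    simp only [P, mul_one, sub_zero]
    have : (C 2 + X : ℝ[X]).natDegree ≤ 1 := by
      rw [add_comm]
      exact (natDegree_X_add_C 2).le
    exact this
  | (k + 2) => by
    have h1 := P_natDegree_le (k + 1)
    have h0 := P_natDegree_le k
    rw [P]
    refine (natDegree_sub_le _ _).trans (max_le ?_ (h0.trans (by omega)))
    refine (natDegree_mul_le).trans ?_
    have : (C 2 + X : ℝ[X]).natDegree ≤ 1 := by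
      rw [add_comm]
      exact (natDegree_X_add_C 2).le
    omega

theorem P_coeff : ∀ k j : ℕ, (P k).coeff j = ((k + j).choose (2 * j + 1) : ℝ)
  | 0, j => by
    simp only [P, coeff_zero, zero_add]
    rw [Nat.choose_eq_zero_of_lt (by omega)]
    simp
  | 1, j => by
    simp only [P]
    rcases Nat.eq_zero_or_pos j with h | h
    · subst h; simp
    · rw [coeff_one, if_neg (by omega), Nat.choose_eq_zero_of_lt (by omega)]
      simp
  | (k + 2), j => by
    rw [P, coeff_sub, add_mul, coeff_add, coeff_C_mul, P_coeff (k + 1) j, P_coeff k j]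
    rcases Nat.eq_zero_or_pos j with h | h
    · subst h
      rw [coeff_X_mul_zero]
      simp
      ring
    · obtain ⟨i, rfl⟩ : ∃ i, j = i + 1 := ⟨j - 1, by omega⟩
      rw [coeff_X_mul, P_coeff (k + 1) i]
      have e1 : k + 2 + (i + 1) = (k + i + 2) + 1 := by ring
      have e2 : k + 1 + (i + 1) = (k + i + 1) + 1 := by ring
      have e3 : k + (i + 1) = k + i + 1 := by ring
      have e4 : k + 1 + i = k + i + 1 := by ring
      have e5 : 2 * (i + 1) + 1 = (2 * i + 2) + 1 := by ring
      rw [e1, e2, e3, e4, e5]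
      rw [Nat.choose_succ_succ (k + i + 2) (2 * i + 2), Nat.choose_succ_succ (k + i + 1) (2 * i + 2)]
      have e6 : (k + i + 2).choose (2 * i + 2) = (k + i + 1).choose (2 * i + 1) +
          (k + i + 1).choose (2 * i + 2) := Nat.choose_succ_succ (k + i + 1) (2 * i + 1)
      simp only [Nat.succ_eq_add_one] at *
      rw [e6]
      push_cast
      ring

/-- The approximant before scaling. -/
noncomputable def Q (c : ℕ → ℝ) (N : ℕ) : ℝ[X] := ∑ k ∈ Finset.range N, C (c k) * P (k + 1)

theorem Q_succ (c : ℕ → ℝ) (N : ℕ) : Q c (N + 1) = Q c N + C (c N) * P (N + 1) := by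
  unfold Q
  rw [Finset.sum_range_succ]

theorem Q_natDegree_le (c : ℕ → ℝ) (N : ℕ) : (Q c (N + 1)).natDegree ≤ N := by
  unfold Q
  refine Polynomial.natDegree_sum_le_of_forall_le _ _ ?_
  intro k hk
  rw [Finset.mem_range] at hk
  refine (natDegree_C_mul_le _ _).trans ((P_natDegree_le k).trans (by omega))

theorem Q_coeff (c : ℕ → ℝ) (N j : ℕ) : (Q c N).coeff j =
    ∑ k ∈ Finset.range N, c k * ((k + 1 + j).choose (2 * j + 1) : ℝ) := by
  unfold Q
  rw [finsetSum_coeff]
  refine Finset.sum_congr rfl ?_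
  intro k _
  rw [coeff_C_mul, P_coeff]

theorem Q_eval_bound {c : ℕ → ℝ} {t : ℝ} (hc0 : 0 < c 0) (N : ℕ)
    (hc : ∀ k, k + 1 < N + 1 → c k ≤ c (k + 1)) :
    |2 * Real.sin (t / 2) * ((Q c (N + 1)).eval (2 * Real.cos t - 2) * Real.sin t)
      + c N * Real.cos (((N : ℝ) + 3 / 2) * t)| ≤ c N - c 0 * (1 - |Real.cos (t / 2)|) := by
  induction N with
  | zero =>
    have h : 2 * Real.sin (t / 2) * ((Q c (0 + 1)).eval (2 * Real.cos t - 2) * Real.sin t)
      + c 0 * Real.cos ((((0 : ℕ) : ℝ) + 3 / 2) * t) = c 0 * Real.cos (t / 2) := by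
      simp only [Q, zero_add, Finset.range_one, Finset.sum_singleton, P, mul_one, eval_C,
        Nat.cast_zero]
      have e1 : Real.cos (3 / 2 * t) = Real.cos (t + t / 2) := by ring_nf
      have e2 : Real.cos (t / 2) = Real.cos (t - t / 2) := by ring_nf
      rw [e1]
      conv_rhs => rw [e2]
      rw [Real.cos_add, Real.cos_sub]
      ring
    rw [h, abs_mul, abs_of_pos hc0]
    linarith
  | succ N ih =>
    have ih' := ih (fun k hk => hc k (by omega))
    have hmono : c N ≤ c (N + 1) := hc N (by omega)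
    have h : 2 * Real.sin (t / 2) * ((Q c (N + 1 + 1)).eval (2 * Real.cos t - 2) * Real.sin t)
      + c (N + 1) * Real.cos ((((N + 1 : ℕ) : ℝ) + 3 / 2) * t) =
      (2 * Real.sin (t / 2) * ((Q c (N + 1)).eval (2 * Real.cos t - 2) * Real.sin t)
      + c N * Real.cos (((N : ℝ) + 3 / 2) * t)) +
      (c (N + 1) - c N) * Real.cos (((N : ℝ) + 3 / 2) * t) := by
      rw [Q_succ c (N + 1), eval_add, eval_mul, eval_C]
      have h1 := P_eval_mul_sin t (N + 2)
      have e1 : Real.cos ((((N + 1 : ℕ) : ℝ) + 3 / 2) * t)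
          = Real.cos (((N + 2 : ℕ) : ℝ) * t + t / 2) := by
        congr 1; push_cast; ring
      have e2 : Real.cos (((N : ℝ) + 3 / 2) * t)
          = Real.cos (((N + 2 : ℕ) : ℝ) * t - t / 2) := by
        congr 1; push_cast; ring
      rw [e1, e2, Real.cos_add, Real.cos_sub]
      have h1' : (P (N + 1 + 1)).eval (2 * Real.cos t - 2) * Real.sin t
          = Real.sin (((N + 2 : ℕ) : ℝ) * t) := h1
      linear_combination (2 * Real.sin (t / 2) * c (N + 1)) * h1'
    rw [h]
    refine (abs_add_le _ _).trans ?_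
    rw [abs_mul, abs_of_nonneg (sub_nonneg.2 hmono)]
    have hcos : |Real.cos (((N : ℝ) + 3 / 2) * t)| ≤ 1 := Real.abs_cos_le_one _
    have : (c (N + 1) - c N) * |Real.cos (((N : ℝ) + 3 / 2) * t)| ≤ (c (N + 1) - c N) * 1 :=
      mul_le_mul_of_nonneg_left hcos (sub_nonneg.2 hmono)
    linarith


/-- The test points. -/
noncomputable def xpt (N j : ℕ) : ℝ := 2 * Real.cos ((j : ℝ) * Real.pi / ((N : ℝ) + 3 / 2)) - 2

theorem xpt_arg_pos {N j : ℕ} (hj : 0 < j) : 0 < (j : ℝ) * Real.pi / ((N : ℝ) + 3 / 2) := by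
  have : (0 : ℝ) < j := by exact_mod_cast hj
  have := Real.pi_pos
  positivity

theorem xpt_arg_lt {N j : ℕ} (hj : j ≤ N + 1) :
    (j : ℝ) * Real.pi / ((N : ℝ) + 3 / 2) < Real.pi := by
  have h1 : (j : ℝ) ≤ (N : ℝ) + 1 := by exact_mod_cast hj
  have h2 : (0 : ℝ) < (N : ℝ) + 3 / 2 := by positivity
  rw [div_lt_iff₀ h2]
  have := Real.pi_pos
  nlinarith

theorem Q_sign {c : ℕ → ℝ} (hc0 : 0 < c 0) (N : ℕ) (hc : ∀ k, k + 1 < N + 1 → c k ≤ c (k + 1))
    {j : ℕ} (hj : 0 < j) (hj' : j ≤ N + 1) :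
    (-1 : ℝ) ^ j * (Q c (N + 1)).eval (xpt N j) < 0 := by
  set t : ℝ := (j : ℝ) * Real.pi / ((N : ℝ) + 3 / 2) with ht
  have ht0 : 0 < t := xpt_arg_pos hj
  have htpi : t < Real.pi := xpt_arg_lt hj'
  have hb := Q_eval_bound (t := t) hc0 N hc
  have h2 : (0 : ℝ) < (N : ℝ) + 3 / 2 := by positivity
  have hcos : Real.cos (((N : ℝ) + 3 / 2) * t) = (-1) ^ j := by
    have : ((N : ℝ) + 3 / 2) * t = (j : ℝ) * Real.pi := by
      rw [ht]; field_simp
    rw [this, Real.cos_nat_mul_pi]
  have hs1 : 0 < Real.sin (t / 2) := Real.sin_pos_of_pos_of_lt_pi (by linarith) (by linarith)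
  have hs2 : 0 < Real.sin t := Real.sin_pos_of_pos_of_lt_pi ht0 htpi
  have hc1 : |Real.cos (t / 2)| < 1 := by
    have hpos : 0 < Real.cos (t / 2) :=
      Real.cos_pos_of_mem_Ioo ⟨by linarith, by linarith⟩
    rw [abs_of_pos hpos]
    have h := Real.cos_sq_add_sin_sq (t / 2)
    nlinarith
  rw [hcos] at hb
  have hx : xpt N j = 2 * Real.cos t - 2 := rfl
  rw [← hx] at hb
  set E := (Q c (N + 1)).eval (xpt N j) with hE
  have hstrict : |2 * Real.sin (t / 2) * (E * Real.sin t) + c N * (-1) ^ j| < c N := by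
    refine lt_of_le_of_lt hb ?_
    have : 0 < c 0 * (1 - |Real.cos (t / 2)|) := mul_pos hc0 (by linarith)
    linarith
  rw [abs_lt] at hstrict
  obtain ⟨hl, hr⟩ := hstrict
  set p := 2 * Real.sin (t / 2) * Real.sin t with hp
  have hppos : 0 < p := by positivity
  have hEp : 2 * Real.sin (t / 2) * (E * Real.sin t) = p * E := by rw [hp]; ring
  rw [hEp] at hl hr
  rcases Nat.even_or_odd j with hev | hod
  · rw [hev.neg_one_pow] at hl hr ⊢
    have : p * E < 0 := by linarith
    have : E < 0 := by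
      by_contra h
      have := mul_nonneg hppos.le (not_lt.1 h)
      linarith
    linarith
  · rw [hod.neg_one_pow] at hl hr ⊢
    have : 0 < p * E := by linarith
    have : 0 < E := by
      by_contra h
      have := mul_nonpos_of_nonneg_of_nonpos hppos.le (not_lt.1 h)
      linarith
    linarith

theorem xpt_lt {N i j : ℕ} (hij : i < j) (hj' : j ≤ N + 1) : xpt N j < xpt N i := by
  unfold xpt
  have h2 : (0 : ℝ) < (N : ℝ) + 3 / 2 := by positivity
  have hlt : (i : ℝ) * Real.pi / ((N : ℝ) + 3 / 2) < (j : ℝ) * Real.pi / ((N : ℝ) + 3 / 2) := by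
    apply div_lt_div_of_pos_right _ h2
    apply mul_lt_mul_of_pos_right _ Real.pi_pos
    exact_mod_cast hij
  have h0 : 0 ≤ (i : ℝ) * Real.pi / ((N : ℝ) + 3 / 2) := by
    have := Real.pi_pos
    positivity
  have := Real.cos_lt_cos_of_nonneg_of_le_pi h0 (xpt_arg_lt hj').le hlt
  linarith

theorem xpt_neg {N j : ℕ} (hj : 0 < j) (hj' : j ≤ N + 1) : xpt N j < 0 := by
  have h := xpt_lt hj hj'
  have h0 : xpt N 0 = 0 := by simp [xpt]
  linarith

theorem Q_root_exists {c : ℕ → ℝ} (hc0 : 0 < c 0) (N : ℕ)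
    (hc : ∀ k, k + 1 < N + 1 → c k ≤ c (k + 1)) (j : Fin N) :
    ∃ r, r ∈ Set.Ioo (xpt N (j + 2)) (xpt N (j + 1)) ∧ (Q c (N + 1)).eval r = 0 := by
  have hj := j.2
  have h1 := Q_sign hc0 N hc (j := j + 1) (by omega) (by omega)
  have h2 := Q_sign hc0 N hc (j := j + 2) (by omega) (by omega)
  have hlt : xpt N (j + 2) < xpt N (j + 1) := xpt_lt (by omega) (by omega)
  have hcont : ContinuousOn (fun x => (Q c (N + 1)).eval x)
      (Set.Icc (xpt N (j + 2)) (xpt N (j + 1))) := (Polynomial.continuous _).continuousOn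
  rcases Nat.even_or_odd (j : ℕ) with hev | hod
  · have e1 : (-1 : ℝ) ^ ((j : ℕ) + 1) = -1 := by rw [pow_succ, hev.neg_one_pow]; ring
    have e2 : (-1 : ℝ) ^ ((j : ℕ) + 2) = 1 := by rw [pow_add, hev.neg_one_pow]; norm_num
    rw [e1] at h1
    rw [e2] at h2
    obtain ⟨r, hr, hr0⟩ := intermediate_value_Ioo hlt.le hcont
      (show (0 : ℝ) ∈ Set.Ioo _ _ from ⟨by linarith, by linarith⟩)
    exact ⟨r, hr, hr0⟩
  · have e1 : (-1 : ℝ) ^ ((j : ℕ) + 1) = 1 := by rw [pow_succ, hod.neg_one_pow]; ring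
    have e2 : (-1 : ℝ) ^ ((j : ℕ) + 2) = -1 := by rw [pow_add, hod.neg_one_pow]; norm_num
    rw [e1] at h1
    rw [e2] at h2
    obtain ⟨r, hr, hr0⟩ := intermediate_value_Ioo' hlt.le hcont
      (show (0 : ℝ) ∈ Set.Ioo _ _ from ⟨by linarith, by linarith⟩)
    exact ⟨r, hr, hr0⟩

theorem Q_roots {c : ℕ → ℝ} (hc0 : 0 < c 0) (N : ℕ)
    (hc : ∀ k, k + 1 < N + 1 → c k ≤ c (k + 1)) :
    (Q c (N + 1)) ≠ 0 ∧ (Q c (N + 1)).Splits ∧ ∀ r ∈ (Q c (N + 1)).roots, r < 0 := by
  have hne : Q c (N + 1) ≠ 0 := by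
    intro h
    have := Q_sign hc0 N hc (j := 1) (by omega) (by omega)
    rw [h] at this
    simp at this
  choose r hr hr0 using Q_root_exists hc0 N hc
  have hanti : ∀ i j : Fin N, i < j → r j < r i := by
    intro i j hij
    have h1 := (hr j).2
    have h2 := (hr i).1
    have hij' : (i : ℕ) < j := hij
    have hj := j.2
    rcases Nat.lt_or_eq_of_le (show (i : ℕ) + 2 ≤ (j : ℕ) + 1 by omega) with h | h
    · have := xpt_lt (N := N) h (by omega)
      linarith
    · rw [← h] at h1
      linarith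
  have hinj : Function.Injective r := by
    intro i j hij
    rcases lt_trichotomy i j with h | h | h
    · have := hanti i j h; rw [hij] at this; exact absurd this (lt_irrefl _)
    · exact h
    · have := hanti j i h; rw [hij] at this; exact absurd this (lt_irrefl _)
  set S : Finset ℝ := Finset.univ.image r with hS
  have hcard : S.card = N := by
    rw [hS, Finset.card_image_of_injective _ hinj]
    simp
  have hle : S.val ≤ (Q c (N + 1)).roots := by
    rw [Multiset.le_iff_subset S.nodup]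
    intro x hx
    rw [Finset.mem_val, hS, Finset.mem_image] at hx
    obtain ⟨j, _, rfl⟩ := hx
    exact (Polynomial.mem_roots hne).2 (hr0 j)
  have hdeg := Q_natDegree_le c N
  have hcr : (Q c (N + 1)).roots.card ≤ N := (Polynomial.card_roots' _).trans hdeg
  have heq : S.val = (Q c (N + 1)).roots := by
    apply Multiset.eq_of_le_of_card_le hle
    rw [Finset.card_val, hcard]
    exact hcr
  refine ⟨hne, ?_, ?_⟩
  · rw [Polynomial.splits_iff_card_roots, ← heq, Finset.card_val, hcard]
    apply le_antisymm _ hdeg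
    have h1 : S.val.card ≤ (Q c (N + 1)).natDegree := by
      rw [heq]
      exact Polynomial.card_roots' _
    rwa [Finset.card_val, hcard] at h1
  · intro x hx
    rw [← heq, Finset.mem_val, hS, Finset.mem_image] at hx
    obtain ⟨j, _, rfl⟩ := hx
    have hj := j.2
    have := (hr j).2
    have := xpt_neg (N := N) (j := j + 1) (by omega) (by omega)
    linarith

/-- The scaled approximant `a * Q (s X)` is in product form. -/
theorem Q_negRooted {c : ℕ → ℝ} (hc0 : 0 < c 0) (N : ℕ)
    (hc : ∀ k, k + 1 < N + 1 → c k ≤ c (k + 1)) {a s : ℝ} (ha : a ≠ 0) (hs : 0 ≤ s) :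
    NegRooted (C a * (Q c (N + 1)).comp (C s * X)) := by
  obtain ⟨hne, hsp, hneg⟩ := Q_roots hc0 N hc
  set q := Q c (N + 1) with hq
  refine ⟨a * (q.leadingCoeff * (q.roots.map (fun r => -r)).prod),
    q.roots.map (fun r => s * (-r)⁻¹), ?_, ?_, ?_⟩
  · refine mul_ne_zero ha (mul_ne_zero (leadingCoeff_ne_zero.2 hne) ?_)
    apply Multiset.prod_ne_zero
    intro h
    rw [Multiset.mem_map] at h
    obtain ⟨r, hr, h0⟩ := h
    have := hneg r hr
    linarith
  · intro β hβ
    rw [Multiset.mem_map] at hβ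
    obtain ⟨r, hr, rfl⟩ := hβ
    have := hneg r hr
    have h2 : 0 < -r := by linarith
    positivity
  · conv_lhs => rw [hsp.eq_prod_roots]
    rw [mul_comp, C_comp, multiset_prod_comp, Multiset.map_map, C_mul, C_mul, Multiset.map_map,
      mul_assoc, mul_assoc]
    congr 2
    have hgen : ∀ m : Multiset ℝ, (∀ r ∈ m, r < 0) →
        (m.map ((fun p => p.comp (C s * X)) ∘ fun x => X - C x)).prod =
        C (m.map (fun r => -r)).prod *
          (m.map ((fun β => 1 + C β * X) ∘ fun r => s * (-r)⁻¹)).prod := by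
      intro m
      induction m using Multiset.induction_on with
      | empty => intro _; simp
      | cons b m ih =>
        intro h
        have hb := h b (Multiset.mem_cons_self b m)
        have ih' := ih (fun ζ hζ => h ζ (Multiset.mem_cons_of_mem hζ))
        simp only [Multiset.map_cons, Multiset.prod_cons, Function.comp_apply] at ih' ⊢
        rw [ih']
        have hb' : -b ≠ 0 := by linarith
        have h1 : (X - C b : ℝ[X]).comp (C s * X) = C (-b) * (1 + C (s * (-b)⁻¹) * X) := by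
          simp only [sub_comp, X_comp, C_comp]
          rw [mul_add, mul_one, ← mul_assoc, ← C_mul]
          have : -b * (s * (-b)⁻¹) = s := by
            rw [mul_left_comm, mul_inv_cancel₀ hb', mul_one]
          rw [this, C_neg]
          ring
        rw [h1]
        have h3 : C (-b * (m.map (fun r => -r)).prod) =
            C (-b) * C (m.map (fun r => -r)).prod := C_mul
        rw [h3]
        generalize (m.map (fun x => 1 + C (s * (-x)⁻¹) * X)).prod = w
        generalize C (m.map (fun r => -r)).prod = v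
        ring
    exact hgen _ hneg

end Pool.Agent.Lib.MP_21a1fd_an
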