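import Mathlib

set_option autoImplicit false

open MeasureTheory Set Filter Topology

namespace Pool.Agent.Lib.MP_21a1fd_an

/-- `t^{-1/2}` -/
noncomputable def al (t : ℝ) : ℝ := (√t)⁻¹

/-- `(e^m-1)^{-1/2}` -/
noncomputable def be (m : ℝ) : ℝ := (√(Real.exp m - 1))⁻¹

/-- the integral of `e^{-km} (e^m-1)^{-1/2}` over the positive axis. -/
noncomputable def II (k : ℕ) : ℝ := ∫ m in Ioi (0 : ℝ), Real.exp (-(k * m)) * be m

theorem be_nonneg (m : ℝ) : 0 ≤ be m := by unfold be; positivity

theorem be_pos {m : ℝ} (hm : 0 < m) : 0 < be m := by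
  unfold be
  have : 0 < Real.exp m - 1 := by
    have := Real.one_lt_exp_iff.2 hm
    linarith
  positivity

theorem exp_sub_one_pos {m : ℝ} (hm : 0 < m) : 0 < Real.exp m - 1 := by
  have := Real.one_lt_exp_iff.2 hm
  linarith

theorem hasDerivAt_sqrt_exp {m : ℝ} (hm : 0 < m) :
    HasDerivAt (fun m => √(Real.exp m - 1)) (Real.exp m * be m / 2) m := by
  have h1 : HasDerivAt (fun m => Real.exp m - 1) (Real.exp m) m :=
    (Real.hasDerivAt_exp m).sub_const 1
  have h2 := h1.sqrt (exp_sub_one_pos hm).ne'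
  convert h2 using 1
  unfold be
  field_simp

theorem sq_sqrt_exp {m : ℝ} (hm : 0 < m) : √(Real.exp m - 1) ^ 2 = Real.exp m - 1 :=
  Real.sq_sqrt (exp_sub_one_pos hm).le

theorem tendsto_sqrt_exp : Tendsto (fun m => √(Real.exp m - 1)) atTop atTop := by
  apply Real.tendsto_sqrt_atTop.comp
  exact tendsto_atTop_add_const_right _ _ Real.tendsto_exp_atTop

theorem be_integral_aux :
    IntegrableOn be (Ioi 0) ∧ ∫ m in Ioi (0 : ℝ), be m = Real.pi := by
  have hcont : ContinuousWithinAt (fun m => 2 * Real.arctan √(Real.exp m - 1)) (Ici 0) 0 := by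
    apply Continuous.continuousWithinAt
    fun_prop
  have hderiv : ∀ x ∈ Ioi (0 : ℝ),
      HasDerivAt (fun m => 2 * Real.arctan √(Real.exp m - 1)) (be x) x := by
    intro x hx
    have h1 := (hasDerivAt_sqrt_exp hx).arctan.const_mul 2
    refine h1.congr_deriv ?_
    rw [sq_sqrt_exp hx]
    have : Real.exp x ≠ 0 := (Real.exp_pos x).ne'
    field_simp
    ring
  have hpos : ∀ x ∈ Ioi (0 : ℝ), 0 ≤ be x := fun x _ => be_nonneg x
  have hlim : Tendsto (fun m => 2 * Real.arctan √(Real.exp m - 1)) atTop (𝓝 (2 * (Real.pi / 2))) := by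
    apply Tendsto.const_mul
    exact (tendsto_nhds_of_tendsto_nhdsWithin Real.tendsto_arctan_atTop).comp tendsto_sqrt_exp
  refine ⟨integrableOn_Ioi_deriv_of_nonneg hcont hderiv hpos hlim, ?_⟩
  rw [integral_Ioi_of_hasDerivAt_of_nonneg hcont hderiv hpos hlim]
  simp
  ring

theorem II_integrable (k : ℕ) : IntegrableOn (fun m => Real.exp (-(k * m)) * be m) (Ioi 0) := by
  have h := be_integral_aux.1
  refine Integrable.mono' h ?_ ?_
  · apply Measurable.aestronglyMeasurable
    unfold be
    fun_prop
  · rw [ae_restrict_iff' measurableSet_Ioi]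
    refine Eventually.of_forall ?_
    intro x hx
    rw [Real.norm_eq_abs, abs_mul, abs_of_nonneg (be_nonneg x), abs_of_pos (Real.exp_pos _)]
    have : Real.exp (-(k * x)) ≤ 1 := by
      rw [Real.exp_le_one_iff]
      have : (0 : ℝ) ≤ k * x := by
        have : (0 : ℝ) < x := hx
        positivity
      linarith
    exact mul_le_of_le_one_left (be_nonneg x) this

theorem II_zero : II 0 = Real.pi := by
  unfold II
  simp only [Nat.cast_zero, zero_mul, neg_zero, Real.exp_zero, one_mul]
  exact be_integral_aux.2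

theorem II_succ (k : ℕ) : II (k + 1) = (2 * k + 1) / (2 * k + 2) * II k := by
  have hcont : ContinuousWithinAt
      (fun m => Real.exp (-((k + 1 : ℕ) * m)) * √(Real.exp m - 1)) (Ici 0) 0 := by
    apply Continuous.continuousWithinAt
    fun_prop
  have hderiv : ∀ x ∈ Ioi (0 : ℝ),
      HasDerivAt (fun m => Real.exp (-((k + 1 : ℕ) * m)) * √(Real.exp m - 1))
        (-((k : ℝ) + 1 / 2) * (Real.exp (-(k * x)) * be x) +
          ((k : ℝ) + 1) * (Real.exp (-((k + 1 : ℕ) * x)) * be x)) x := by
    intro x hx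
    have h1 : HasDerivAt (fun m : ℝ => Real.exp (-((k + 1 : ℕ) * m)))
        (Real.exp (-((k + 1 : ℕ) * x)) * (-((k + 1 : ℕ) : ℝ))) x := by
      have h0 : HasDerivAt (fun m : ℝ => -(((k + 1 : ℕ) : ℝ) * m)) (-((k + 1 : ℕ) : ℝ)) x := by
        have := ((hasDerivAt_id x).const_mul ((k + 1 : ℕ) : ℝ)).neg
        refine this.congr_deriv ?_
        simp
      exact h0.exp
    have h2 := h1.mul (hasDerivAt_sqrt_exp hx)
    refine h2.congr_deriv ?_
    have hs := sq_sqrt_exp hx
    have hspos : 0 < √(Real.exp x - 1) := Real.sqrt_pos.2 (exp_sub_one_pos hx)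
    have e1 : Real.exp (-(k * x)) = Real.exp (-((k + 1 : ℕ) * x)) * Real.exp x := by
      rw [← Real.exp_add]; congr 1; push_cast; ring
    rw [e1]
    set E := Real.exp (-((k + 1 : ℕ) * x)) with hE
    set s := √(Real.exp x - 1) with hs'
    have hbe : be x = s⁻¹ := rfl
    have hex : Real.exp x = s ^ 2 + 1 := by rw [hs]; ring
    rw [hbe, hex]
    field_simp
    push_cast
    ring
  have hint : IntegrableOn (fun x => -((k : ℝ) + 1 / 2) * (Real.exp (-(k * x)) * be x) +
          ((k : ℝ) + 1) * (Real.exp (-((k + 1 : ℕ) * x)) * be x)) (Ioi 0) :=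
    ((II_integrable k).const_mul _).add ((II_integrable (k + 1)).const_mul _)
  have hlim : Tendsto (fun m => Real.exp (-((k + 1 : ℕ) * m)) * √(Real.exp m - 1)) atTop (𝓝 0) := by
    have hle : ∀ᶠ m : ℝ in atTop, Real.exp (-((k + 1 : ℕ) * m)) * √(Real.exp m - 1)
        ≤ Real.exp (-(1 / 2 * m)) := by
      filter_upwards [eventually_gt_atTop 0] with m hm
      have h1 : √(Real.exp m - 1) ≤ Real.exp (m / 2) := by
        rw [Real.sqrt_le_left (Real.exp_pos _).le, ← Real.exp_nat_mul]
        have : ((2 : ℕ) : ℝ) * (m / 2) = m := by push_cast; ring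
        rw [this]
        linarith
      have h2 : Real.exp (-((k + 1 : ℕ) * m)) ≤ Real.exp (-m) := by
        apply Real.exp_le_exp.2
        push_cast
        have : (0 : ℝ) ≤ k * m := by positivity
        nlinarith
      calc Real.exp (-((k + 1 : ℕ) * m)) * √(Real.exp m - 1)
          ≤ Real.exp (-m) * Real.exp (m / 2) := by gcongr
        _ = Real.exp (-(1 / 2 * m)) := by rw [← Real.exp_add]; congr 1; ring
    have hge : ∀ᶠ m : ℝ in atTop, 0 ≤ Real.exp (-((k + 1 : ℕ) * m)) * √(Real.exp m - 1) :=
      Eventually.of_forall (fun m => by positivity)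
    have hl : Tendsto (fun m : ℝ => Real.exp (-(1 / 2 * m))) atTop (𝓝 0) := by
      apply Real.tendsto_exp_neg_atTop_nhds_zero.comp
      exact tendsto_id.const_mul_atTop (by norm_num)
    exact tendsto_of_tendsto_of_tendsto_of_le_of_le' tendsto_const_nhds hl hge hle
  have hI := integral_Ioi_of_hasDerivAt_of_tendsto hcont hderiv hint hlim
  rw [integral_add ((II_integrable k).const_mul _) ((II_integrable (k + 1)).const_mul _),
    integral_const_mul, integral_const_mul] at hI
  have h3 : -((k : ℝ) + 1 / 2) * II k + ((k : ℝ) + 1) * II (k + 1) = 0 := by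
    unfold II
    rw [hI]
    simp
  have hk : (0 : ℝ) < (k : ℝ) + 1 := by positivity
  field_simp
  linarith

theorem II_eq (k : ℕ) : II k = Real.pi * ((2 * k).factorial / (4 ^ k * (k.factorial : ℝ) ^ 2)) := by
  induction k with
  | zero => rw [II_zero]; simp
  | succ k ih =>
    rw [II_succ, ih]
    have h1 : (2 * (k + 1)).factorial = (2 * k + 2) * ((2 * k + 1) * (2 * k).factorial) := by
      have : 2 * (k + 1) = (2 * k + 1) + 1 := by ring
      rw [this, Nat.factorial_succ, Nat.factorial_succ]
    rw [h1, Nat.factorial_succ]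
    push_cast
    have hk : (k.factorial : ℝ) ≠ 0 := by positivity
    have hk2 : ((2 * k).factorial : ℝ) ≠ 0 := by positivity
    have hk3 : (2 * (k : ℝ) + 2) ≠ 0 := by positivity
    have hk4 : ((k : ℝ) + 1) ≠ 0 := by positivity
    field_simp
    ring

theorem al_integral {k : ℕ} (hk : 0 < k) :
    IntegrableOn (fun t => Real.exp (-(k * t)) * al t) (Ioi 0) ∧
      ∫ t in Ioi (0 : ℝ), Real.exp (-(k * t)) * al t = √Real.pi / √k := by
  have hk' : (0 : ℝ) < k := by exact_mod_cast hk
  have hEq : EqOn (fun t : ℝ => t ^ ((1 / 2 : ℝ) - 1) * Real.exp (-(k * t)))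
      (fun t => Real.exp (-(k * t)) * al t) (Ioi 0) := by
    intro t ht
    have ht' : (0 : ℝ) < t := ht
    have : t ^ ((1 / 2 : ℝ) - 1) = al t := by
      unfold al
      rw [Real.sqrt_eq_rpow, ← Real.rpow_neg ht'.le]
      norm_num
    simp only [this]
    ring
  constructor
  · rw [← integrableOn_congr_fun hEq measurableSet_Ioi]
    have h := integrableOn_rpow_mul_exp_neg_mul_rpow (s := (1 / 2 : ℝ) - 1) (p := 1) (b := k)
      (by norm_num) (by norm_num) hk'
    refine h.congr_fun ?_ measurableSet_Ioi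
    intro t _
    simp
  · rw [← setIntegral_congr_fun measurableSet_Ioi hEq]
    rw [Real.integral_rpow_mul_exp_neg_mul_Ioi (by norm_num) hk', Real.Gamma_one_half_eq,
      ← Real.sqrt_eq_rpow, Real.sqrt_div' _ hk'.le, Real.sqrt_one]
    ring


/-- the convolution of `al` and `be`. -/
noncomputable def hh (L : ℝ) : ℝ := ∫ t in (0 : ℝ)..L, al t * be (L - t)

theorem al_nonneg (t : ℝ) : 0 ≤ al t := by unfold al; positivity

theorem al_pos {t : ℝ} (ht : 0 < t) : 0 < al t := by unfold al; positivity

theorem be_le_al {m : ℝ} (hm : 0 < m) : be m ≤ al m := by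
  unfold be al
  apply inv_anti₀ (Real.sqrt_pos.2 hm)
  apply Real.sqrt_le_sqrt
  have := Real.add_one_le_exp m
  linarith

theorem al_intervalIntegrable (L : ℝ) : IntervalIntegrable al volume 0 L := by
  have h := intervalIntegral.intervalIntegrable_rpow' (a := 0) (b := L) (r := -(1 / 2 : ℝ))
    (by norm_num)
  rcases le_total 0 L with hL | hL
  · refine h.congr ?_
    intro t ht
    rw [uIoc_of_le hL] at ht
    unfold al
    simp only
    rw [Real.sqrt_eq_rpow, ← Real.rpow_neg ht.1.le]
  · have : EqOn (fun _ : ℝ => (0 : ℝ)) al (uIoc 0 L) := by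
      intro t ht
      rw [uIoc_of_ge hL] at ht
      unfold al
      rw [Real.sqrt_eq_zero'.2 ht.2]
      simp
    exact (intervalIntegrable_const (c := (0 : ℝ))).congr this

theorem measurable_al : Measurable al := by unfold al; fun_prop

theorem measurable_be : Measurable be := by unfold be; fun_prop

theorem al_mul_be_le {L t : ℝ} (ht : 0 < t) (htL : t < L) :
    al t * be (L - t) ≤ al (L / 2) * (al t + al (L - t)) := by
  have h1 : 0 < L - t := by linarith
  have h2 : be (L - t) ≤ al (L - t) := be_le_al h1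
  have h3 : al t * be (L - t) ≤ al t * al (L - t) := mul_le_mul_of_nonneg_left h2 (al_nonneg _)
  refine h3.trans ?_
  have hanti : ∀ a b : ℝ, 0 < a → a ≤ b → al b ≤ al a := by
    intro a b ha hab
    unfold al
    exact inv_anti₀ (Real.sqrt_pos.2 ha) (Real.sqrt_le_sqrt hab)
  rcases le_total t (L / 2) with h | h
  · have h4 : al (L - t) ≤ al (L / 2) := hanti _ _ (by linarith) (by linarith)
    have := mul_le_mul_of_nonneg_left h4 (al_nonneg t)
    have h5 := mul_nonneg (al_nonneg (L / 2)) (al_nonneg (L - t))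
    nlinarith
  · have h4 : al t ≤ al (L / 2) := hanti _ _ (by linarith) h
    have := mul_le_mul_of_nonneg_right h4 (al_nonneg (L - t))
    have h5 := mul_nonneg (al_nonneg (L / 2)) (al_nonneg t)
    nlinarith

theorem integrand_intervalIntegrable {L : ℝ} (hL : 0 < L) :
    IntervalIntegrable (fun t => al t * be (L - t)) volume 0 L := by
  have h1 := al_intervalIntegrable L
  have h2 : IntervalIntegrable (fun t => al (L - t)) volume 0 L := by
    have := (al_intervalIntegrable L).comp_sub_left L
    simpa using this.symm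
  have h3 : IntervalIntegrable (fun t => al (L / 2) * (al t + al (L - t))) volume 0 L :=
    (h1.add h2).const_mul _
  rw [intervalIntegrable_iff_integrableOn_Ioo_of_le hL.le] at h3 ⊢
  refine Integrable.mono' h3 ?_ ?_
  · apply Measurable.aestronglyMeasurable
    exact measurable_al.mul (measurable_be.comp (measurable_const.sub measurable_id))
  · rw [ae_restrict_iff' measurableSet_Ioo]
    refine Eventually.of_forall ?_
    intro t ht
    rw [Real.norm_eq_abs, abs_of_nonneg (mul_nonneg (al_nonneg _) (be_nonneg _))]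
    exact al_mul_be_le ht.1 ht.2

theorem hh_pos {L : ℝ} (hL : 0 < L) : 0 < hh L := by
  unfold hh
  apply intervalIntegral.intervalIntegral_pos_of_pos_on (integrand_intervalIntegrable hL) _ hL
  intro t ht
  exact mul_pos (al_pos ht.1) (be_pos (by linarith [ht.2]))

theorem hh_scaled (L : ℝ) : hh L = ∫ w in (0 : ℝ)..1, L * (al (L * w) * be (L * (1 - w))) := by
  unfold hh
  have h := intervalIntegral.mul_integral_comp_mul_left (a := 0) (b := 1)
    (f := fun t => al t * be (L - t)) L
  rw [mul_zero, mul_one] at h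
  rw [← h, intervalIntegral.integral_const_mul]
  congr 1
  apply intervalIntegral.integral_congr
  intro w _
  simp only
  congr 2
  ring

theorem scaled_integrable {L : ℝ} (hL : 0 < L) :
    IntervalIntegrable (fun w => L * (al (L * w) * be (L * (1 - w)))) volume 0 1 := by
  apply IntervalIntegrable.const_mul
  have h := (integrand_intervalIntegrable hL).comp_mul_left (c := L)
  simp only [zero_div, div_self hL.ne'] at h
  refine h.congr ?_
  intro w _
  simp only
  congr 2
  ring

/-- monotonicity of `(e^{cL}-1)/L`. -/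
theorem exp_sub_one_div_mono {c L1 L2 : ℝ} (hc : 0 < c) (h1 : 0 < L1) (h12 : L1 ≤ L2) :
    (Real.exp (L1 * c) - 1) * L2 ≤ (Real.exp (L2 * c) - 1) * L1 := by
  have hconv := convexOn_exp.secant_mono (a := 0) (x := L1 * c) (y := L2 * c)
    (mem_univ _) (mem_univ _) (mem_univ _) (by positivity) (by
      have : 0 < L2 := by linarith
      positivity) (by nlinarith)
  rw [Real.exp_zero, sub_zero, sub_zero] at hconv
  have hL2 : 0 < L2 := by linarith
  rw [div_le_div_iff₀ (by positivity) (by positivity)] at hconv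
  have : c * ((Real.exp (L1 * c) - 1) * L2) ≤ c * ((Real.exp (L2 * c) - 1) * L1) := by
    nlinarith
  exact le_of_mul_le_mul_left this hc

theorem hh_anti {L1 L2 : ℝ} (h1 : 0 < L1) (h12 : L1 ≤ L2) : hh L2 ≤ hh L1 := by
  have h2 : 0 < L2 := by linarith
  rw [hh_scaled L1, hh_scaled L2]
  apply intervalIntegral.integral_mono_on_of_le_Ioo (by norm_num) (scaled_integrable h2)
    (scaled_integrable h1)
  intro w hw
  have hw0 : 0 < w := hw.1
  have hw1 : 0 < 1 - w := by linarith [hw.2]
  have key : ∀ L : ℝ, 0 < L → L * (al (L * w) * be (L * (1 - w))) =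
      (√w)⁻¹ * √(L / (Real.exp (L * (1 - w)) - 1)) := by
    intro L hL
    unfold al be
    have he : 0 < Real.exp (L * (1 - w)) - 1 := exp_sub_one_pos (by positivity)
    rw [Real.sqrt_mul hL.le, Real.sqrt_div hL.le]
    have hsL : 0 < √L := Real.sqrt_pos.2 hL
    have hsw : 0 < √w := Real.sqrt_pos.2 hw0
    have hse : 0 < √(Real.exp (L * (1 - w)) - 1) := Real.sqrt_pos.2 he
    have hLL : √L * √L = L := Real.mul_self_sqrt hL.le
    field_simp
    nlinarith
  rw [key L1 h1, key L2 h2]
  apply mul_le_mul_of_nonneg_left _ (by positivity)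
  apply Real.sqrt_le_sqrt
  rw [div_le_div_iff₀ (exp_sub_one_pos (by positivity)) (exp_sub_one_pos (by positivity))]
  have := exp_sub_one_div_mono hw1 h1 h12
  linarith

theorem hh_laplace {k : ℕ} (hk : 0 < k) :
    IntegrableOn (fun x => Real.exp (-(k * x)) * hh x) (Ioi 0) ∧
    ∫ x in Ioi (0 : ℝ), Real.exp (-(k * x)) * hh x = √Real.pi / √k * II k := by
  have hA := al_integral hk
  have hB := II_integrable k
  have hinner : ∀ x : ℝ, Real.exp (-(k * x)) * hh x =
      ∫ t in (0 : ℝ)..x, (ContinuousLinearMap.mul ℝ ℝ) (Real.exp (-(k * t)) * al t)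
        (Real.exp (-(k * (x - t))) * be (x - t)) := by
    intro x
    unfold hh
    rw [← intervalIntegral.integral_const_mul]
    apply intervalIntegral.integral_congr
    intro t _
    simp only [ContinuousLinearMap.mul_apply']
    have : Real.exp (-(k * x)) = Real.exp (-(k * t)) * Real.exp (-(k * (x - t))) := by
      rw [← Real.exp_add]; congr 1; ring
    rw [this]
    ring
  constructor
  · have h := integrable_posConvolution hA.1 hB (ContinuousLinearMap.mul ℝ ℝ)
    unfold posConvolution at h
    rw [integrable_indicator_iff measurableSet_Ioi] at h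
    refine h.congr_fun ?_ measurableSet_Ioi
    intro x _
    exact (hinner x).symm
  · have h := integral_posConvolution hA.1 hB (ContinuousLinearMap.mul ℝ ℝ)
    simp only [← hinner] at h
    rw [h, hA.2]
    rfl

/-- The increasing kernel on `(0,1)`. -/
noncomputable def HH (t : ℝ) : ℝ := hh (-(2 * Real.log t))

theorem HH_pos {t : ℝ} (h0 : 0 < t) (h1 : t < 1) : 0 < HH t := by
  unfold HH
  apply hh_pos
  have := Real.log_neg h0 h1
  linarith

theorem HH_mono {s t : ℝ} (h0 : 0 < s) (hst : s ≤ t) (h1 : t < 1) : HH s ≤ HH t := by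
  unfold HH
  apply hh_anti
  · have := Real.log_neg (by linarith) h1
    linarith
  · have := Real.log_le_log h0 hst
    linarith

theorem HH_moment (j : ℕ) :
    IntegrableOn (fun t => HH t * t ^ (2 * j + 1)) (Ioo 0 1) ∧
    ∫ t in Ioo (0 : ℝ) 1, HH t * t ^ (2 * j + 1) = 1 / 2 * (√Real.pi / √((j + 1 : ℕ) : ℝ) * II (j + 1)) := by
  have himg : (fun x : ℝ => Real.exp (-x / 2)) '' Ioi 0 = Ioo 0 1 := by
    ext y
    constructor
    · rintro ⟨x, hx, rfl⟩
      have hx' : (0 : ℝ) < x := hx
      refine ⟨Real.exp_pos _, ?_⟩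
      simp only [Real.exp_lt_one_iff]
      linarith
    · rintro ⟨h0, h1⟩
      refine ⟨-(2 * Real.log y), ?_, ?_⟩
      · have := Real.log_neg h0 h1
        simp only [mem_Ioi]
        linarith
      · simp only
        have : -(-(2 * Real.log y)) / 2 = Real.log y := by ring
        rw [this, Real.exp_log h0]
  have hderiv : ∀ x ∈ Ioi (0 : ℝ), HasDerivWithinAt (fun x : ℝ => Real.exp (-x / 2))
      (Real.exp (-x / 2) * (-1 / 2)) (Ioi 0) x := by
    intro x _
    have h0 : HasDerivAt (fun x : ℝ => -x / 2) (-1 / 2) x :=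
      ((hasDerivAt_id x).neg).div_const 2
    exact h0.exp.hasDerivWithinAt
  have hinj : InjOn (fun x : ℝ => Real.exp (-x / 2)) (Ioi 0) := by
    intro x _ y _ hxy
    have := Real.exp_injective hxy
    linarith
  have hpt : ∀ x : ℝ, |Real.exp (-x / 2) * (-1 / 2)| •
      (HH (Real.exp (-x / 2)) * Real.exp (-x / 2) ^ (2 * j + 1)) =
      1 / 2 * (Real.exp (-((j + 1 : ℕ) * x)) * hh x) := by
    intro x
    have h1 : HH (Real.exp (-x / 2)) = hh x := by
      unfold HH
      rw [Real.log_exp]
      congr 1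
      ring
    rw [h1, smul_eq_mul, abs_mul, abs_of_pos (Real.exp_pos _)]
    have h2 : Real.exp (-((j + 1 : ℕ) * x)) = Real.exp (-x / 2) * Real.exp (-x / 2) ^ (2 * j + 1) := by
      rw [← pow_succ', ← Real.exp_nat_mul]
      congr 1
      push_cast
      ring
    rw [h2]
    norm_num
    ring
  have hL := hh_laplace (k := j + 1) (Nat.succ_pos j)
  constructor
  · rw [← himg, integrableOn_image_iff_integrableOn_abs_deriv_smul measurableSet_Ioi hderiv hinj]
    simp only [hpt]
    exact hL.1.const_mul _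
  · rw [← himg, integral_image_eq_integral_abs_deriv_smul measurableSet_Ioi hderiv hinj]
    simp only [hpt]
    rw [integral_const_mul, hL.2]

end Pool.Agent.Lib.MP_21a1fd_an
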