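import Mathlib
import Pool.Agent.Lib.MP_21a1fd_an.Kernel

set_option autoImplicit false

open MeasureTheory Set Filter Topology

namespace Pool.Agent.Lib.MP_21a1fd_an

theorem HH_intervalIntegrable : IntervalIntegrable HH volume 0 1 := by
  rw [intervalIntegrable_iff_integrableOn_Ioo_of_le zero_le_one]
  have hm := (HH_moment 0).1
  have hbound : IntegrableOn (fun t => HH (1 / 2) + 2 * (HH t * t ^ (2 * 0 + 1))) (Ioo 0 1) :=
    (integrableOn_const (by simp)).add (hm.const_mul 2)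
  refine Integrable.mono' hbound ?_ ?_
  · apply AEMeasurable.aestronglyMeasurable
    apply aemeasurable_restrict_of_monotoneOn measurableSet_Ioo
    intro s hs t ht hst
    exact HH_mono hs.1 hst ht.2
  · rw [ae_restrict_iff' measurableSet_Ioo]
    refine Eventually.of_forall ?_
    intro t ht
    have hpos := HH_pos ht.1 ht.2
    rw [Real.norm_eq_abs, abs_of_pos hpos]
    have hhalf : 0 < HH (1 / 2) := HH_pos (by norm_num) (by norm_num)
    simp only [mul_zero, zero_add, pow_one]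
    rcases le_total t (1 / 2) with h | h
    · have h1 := HH_mono ht.1 h (by norm_num)
      have h2 : 0 ≤ HH t * t := mul_nonneg hpos.le ht.1.le
      linarith
    · have : HH t ≤ 2 * (HH t * t) := by nlinarith
      linarith

/-- cell averages -/
noncomputable def cc (N k : ℕ) : ℝ :=
  ((N : ℝ) + 1) * ∫ t in ((k : ℝ) / ((N : ℝ) + 1))..(((k + 1 : ℕ) : ℝ) / ((N : ℝ) + 1)), HH t

theorem cell_le {N k : ℕ} (hk : k < N + 1) :
    0 ≤ (k : ℝ) / ((N : ℝ) + 1) ∧
    (k : ℝ) / ((N : ℝ) + 1) < ((k + 1 : ℕ) : ℝ) / ((N : ℝ) + 1) ∧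
    ((k + 1 : ℕ) : ℝ) / ((N : ℝ) + 1) ≤ 1 := by
  have hN : (0 : ℝ) < (N : ℝ) + 1 := by positivity
  refine ⟨by positivity, ?_, ?_⟩
  · apply div_lt_div_of_pos_right _ hN
    push_cast
    linarith
  · rw [div_le_one hN]
    have : ((k + 1 : ℕ) : ℝ) ≤ ((N + 1 : ℕ) : ℝ) := by exact_mod_cast hk
    push_cast at this ⊢
    linarith

theorem cell_integrable {N k : ℕ} (hk : k < N + 1) :
    IntervalIntegrable HH volume ((k : ℝ) / ((N : ℝ) + 1)) (((k + 1 : ℕ) : ℝ) / ((N : ℝ) + 1)) := by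
  obtain ⟨h0, h1, h2⟩ := cell_le hk
  apply HH_intervalIntegrable.mono_set
  rw [uIcc_of_le h1.le, uIcc_of_le zero_le_one]
  exact Icc_subset_Icc h0 h2

theorem cc_zero_pos (N : ℕ) : 0 < cc N 0 := by
  unfold cc
  have hN : (0 : ℝ) < (N : ℝ) + 1 := by positivity
  apply mul_pos hN
  obtain ⟨h0, h1, h2⟩ := cell_le (N := N) (k := 0) (by omega)
  apply intervalIntegral.intervalIntegral_pos_of_pos_on (cell_integrable (by omega)) _ h1
  intro t ht
  exact HH_pos (lt_of_le_of_lt h0 ht.1) (lt_of_lt_of_le ht.2 h2)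

theorem cc_mono (N k : ℕ) (hk : k + 1 < N + 1) : cc N k ≤ cc N (k + 1) := by
  unfold cc
  have hN : (0 : ℝ) < (N : ℝ) + 1 := by positivity
  apply mul_le_mul_of_nonneg_left _ hN.le
  obtain ⟨h0, h1, h2⟩ := cell_le (N := N) (k := k) (by omega)
  obtain ⟨g0, g1, g2⟩ := cell_le (N := N) (k := k + 1) hk
  have e1 : ((k + 1 : ℕ) : ℝ) / ((N : ℝ) + 1) = (k : ℝ) / ((N : ℝ) + 1) + 1 / ((N : ℝ) + 1) := by
    push_cast; ring
  have e2 : ((k + 1 + 1 : ℕ) : ℝ) / ((N : ℝ) + 1) =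
      ((k + 1 : ℕ) : ℝ) / ((N : ℝ) + 1) + 1 / ((N : ℝ) + 1) := by
    push_cast; ring
  have hshift : ∫ t in (((k + 1 : ℕ) : ℝ) / ((N : ℝ) + 1))..(((k + 1 + 1 : ℕ) : ℝ) / ((N : ℝ) + 1)),
      HH t = ∫ t in ((k : ℝ) / ((N : ℝ) + 1))..(((k + 1 : ℕ) : ℝ) / ((N : ℝ) + 1)),
      HH (t + 1 / ((N : ℝ) + 1)) := by
    rw [intervalIntegral.integral_comp_add_right, e2, ← e1]
  rw [hshift]
  apply intervalIntegral.integral_mono_on_of_le_Ioo h1.le (cell_integrable (by omega))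
  · have h := (cell_integrable (N := N) (k := k + 1) hk).comp_add_right (1 / ((N : ℝ) + 1))
    rw [e2] at h
    simp only [add_sub_cancel_right] at h
    rw [show ((k + 1 : ℕ) : ℝ) / ((N : ℝ) + 1) - 1 / ((N : ℝ) + 1) = (k : ℝ) / ((N : ℝ) + 1) by
      rw [e1]; ring] at h
    exact h
  · intro t ht
    apply HH_mono (lt_of_le_of_lt h0 ht.1)
    · have : 0 < 1 / ((N : ℝ) + 1) := by positivity
      linarith
    · have : t + 1 / ((N : ℝ) + 1) < ((k + 1 : ℕ) : ℝ) / ((N : ℝ) + 1) + 1 / ((N : ℝ) + 1) := by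
        linarith [ht.2]
      rw [← e2] at this
      linarith

theorem binom_approx (j N k : ℕ) (hk : k < N + 1) {t : ℝ}
    (ht1 : (k : ℝ) / ((N : ℝ) + 1) ≤ t) (ht2 : t ≤ ((k + 1 : ℕ) : ℝ) / ((N : ℝ) + 1)) :
    |((k + 1 + j).choose (2 * j + 1) : ℝ) / ((N : ℝ) + 1) ^ (2 * j + 1)
      - t ^ (2 * j + 1) / (2 * j + 1).factorial| ≤
      ((j : ℝ) + 1) * ((2 * j + 1 : ℕ) : ℝ) * ((j : ℝ) + 2) ^ (2 * j) /
        (2 * j + 1).factorial * (1 / ((N : ℝ) + 1)) := by
  obtain ⟨h0, h1, h2⟩ := cell_le (N := N) (k := k) hk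
  have hN : (0 : ℝ) < (N : ℝ) + 1 := by positivity
  have hN1 : 1 / ((N : ℝ) + 1) ≤ 1 := by
    rw [div_le_one hN]
    have : (0 : ℝ) ≤ N := by positivity
    linarith
  have hNpos : 0 < 1 / ((N : ℝ) + 1) := by positivity
  have ht0 : 0 ≤ t := h0.trans ht1
  have ht1' : t ≤ 1 := ht2.trans h2
  set m := 2 * j + 1 with hm
  have hmf : (0 : ℝ) < (m.factorial : ℝ) := by positivity
  have hup := Nat.choose_le_pow_div (α := ℝ) m (k + 1 + j)
  have hlo := Nat.pow_le_choose (α := ℝ) m (k + 1 + j)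
  set a : ℝ := ((k + 1 + j : ℕ) : ℝ) / ((N : ℝ) + 1) with ha
  set b : ℝ := ((k + 1 + j + 1 - m : ℕ) : ℝ) / ((N : ℝ) + 1) with hb
  have e1 : ((k + 1 : ℕ) : ℝ) / ((N : ℝ) + 1) = (k : ℝ) / ((N : ℝ) + 1) + 1 / ((N : ℝ) + 1) := by
    push_cast; ring
  have hap : ((k + 1 + j).choose m : ℝ) / ((N : ℝ) + 1) ^ m ≤ a ^ m / m.factorial := by
    rw [ha, div_pow, div_right_comm]
    exact div_le_div_of_nonneg_right hup (by positivity)
  have hbp : b ^ m / m.factorial ≤ ((k + 1 + j).choose m : ℝ) / ((N : ℝ) + 1) ^ m := by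
    rw [hb, div_pow, div_right_comm]
    exact div_le_div_of_nonneg_right hlo (by positivity)
  have hj0 : (0 : ℝ) ≤ j := by positivity
  have haeq : a = (k : ℝ) / ((N : ℝ) + 1) + ((j : ℝ) + 1) * (1 / ((N : ℝ) + 1)) := by
    rw [ha]; push_cast; ring
  have ha_t : |a - t| ≤ ((j : ℝ) + 1) * (1 / ((N : ℝ) + 1)) := by
    rw [abs_le]
    constructor
    · rw [haeq]
      nlinarith
    · rw [haeq]
      linarith
  have ha_max : max |a| |t| ≤ (j : ℝ) + 2 := by
    apply max_le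
    · have : 0 ≤ a := by rw [ha]; positivity
      rw [abs_of_nonneg this, haeq]
      nlinarith
    · rw [abs_of_nonneg ht0]; linarith
  have hb_le : b ≤ ((k + 1 : ℕ) : ℝ) / ((N : ℝ) + 1) := by
    rw [hb]
    apply div_le_div_of_nonneg_right _ hN.le
    exact_mod_cast (by omega : k + 1 + j + 1 - m ≤ k + 1)
  have hb_ge : (k : ℝ) / ((N : ℝ) + 1) + (1 - (j : ℝ)) * (1 / ((N : ℝ) + 1)) ≤ b := by
    have : (k : ℝ) + 1 - j ≤ ((k + 1 + j + 1 - m : ℕ) : ℝ) := by
      have h3 : k + 1 ≤ (k + 1 + j + 1 - m) + j := by omega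
      have h4 : ((k + 1 : ℕ) : ℝ) ≤ (((k + 1 + j + 1 - m) + j : ℕ) : ℝ) := by exact_mod_cast h3
      push_cast at h4
      linarith
    have h5 := div_le_div_of_nonneg_right this hN.le
    rw [← hb] at h5
    have h6 : ((k : ℝ) + 1 - j) / ((N : ℝ) + 1) =
        (k : ℝ) / ((N : ℝ) + 1) + (1 - (j : ℝ)) * (1 / ((N : ℝ) + 1)) := by ring
    linarith
  have hb_t : |b - t| ≤ ((j : ℝ) + 1) * (1 / ((N : ℝ) + 1)) := by
    rw [abs_le]
    constructor
    · nlinarith
    · nlinarith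
  have hb_max : max |b| |t| ≤ (j : ℝ) + 2 := by
    apply max_le
    · have : 0 ≤ b := by rw [hb]; positivity
      rw [abs_of_nonneg this]
      linarith
    · rw [abs_of_nonneg ht0]; linarith
  have hpow : ∀ x : ℝ, |x - t| ≤ ((j : ℝ) + 1) * (1 / ((N : ℝ) + 1)) → max |x| |t| ≤ (j : ℝ) + 2 →
      |x ^ m / m.factorial - t ^ m / m.factorial| ≤ ((j : ℝ) + 1) * ((m : ℕ) : ℝ) * ((j : ℝ) + 2) ^ (2 * j) /
        m.factorial * (1 / ((N : ℝ) + 1)) := by
    intro x hx hxm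
    rw [← sub_div, abs_div, abs_of_pos hmf]
    have h3 := abs_pow_sub_pow_le x t m
    have h4 : m - 1 = 2 * j := by omega
    rw [h4] at h3
    have h5 : |x - t| * (m : ℝ) * max |x| |t| ^ (2 * j) ≤
        ((j : ℝ) + 1) * (1 / ((N : ℝ) + 1)) * (m : ℝ) * ((j : ℝ) + 2) ^ (2 * j) := by
      gcongr
    calc |x ^ m - t ^ m| / m.factorial
        ≤ (((j : ℝ) + 1) * (1 / ((N : ℝ) + 1)) * (m : ℝ) * ((j : ℝ) + 2) ^ (2 * j)) / m.factorial :=
          div_le_div_of_nonneg_right (h3.trans h5) hmf.le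
      _ = _ := by ring
  have h6 := hpow a ha_t ha_max
  have h7 := hpow b hb_t hb_max
  rw [abs_le] at h6 h7 ⊢
  constructor
  · linarith [h7.1]
  · linarith [h6.2]

/-- Convergence of the coefficient sums. -/
theorem coeff_sum_tendsto (j : ℕ) : Tendsto (fun N : ℕ =>
    ∑ k ∈ Finset.range (N + 1), (1 / ((N : ℝ) + 1) ^ (2 * j + 2)) *
      (cc N k * ((k + 1 + j).choose (2 * j + 1) : ℝ))) atTop
    (𝓝 ((∫ t in (0 : ℝ)..1, HH t * t ^ (2 * j + 1)) / (2 * j + 1).factorial)) := by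
  set m := 2 * j + 1 with hm
  set Cj : ℝ := ((j : ℝ) + 1) * ((m : ℕ) : ℝ) * ((j : ℝ) + 2) ^ (2 * j) / m.factorial with hCj
  set I0 : ℝ := ∫ t in (0 : ℝ)..1, HH t with hI0
  have hCj0 : 0 ≤ Cj := by rw [hCj]; positivity
  rw [tendsto_iff_norm_sub_tendsto_zero]
  have hlim : Tendsto (fun N : ℕ => Cj * (1 / ((N : ℝ) + 1)) * I0) atTop (𝓝 0) := by
    have h1 : Tendsto (fun N : ℕ => (1 / ((N : ℝ) + 1) : ℝ)) atTop (𝓝 0) :=
      tendsto_one_div_add_atTop_nhds_zero_nat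
    have := (h1.const_mul Cj).mul_const I0
    simpa using this
  refine squeeze_zero (fun _ => norm_nonneg _) ?_ hlim
  intro N
  rw [Real.norm_eq_abs]
  have hN : (0 : ℝ) < (N : ℝ) + 1 := by positivity
  set a : ℕ → ℝ := fun k => (k : ℝ) / ((N : ℝ) + 1) with ha
  have ha0 : a 0 = 0 := by simp [ha]
  have ha1 : a (N + 1) = 1 := by
    simp only [ha]
    push_cast
    exact div_self hN.ne'
  have hgint : ∀ k < N + 1, IntervalIntegrable (fun t => HH t * t ^ m) volume (a k) (a (k + 1)) := by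
    intro k hk
    exact (cell_integrable hk).mul_continuousOn (by fun_prop)
  have hsum1 : ∫ t in (0 : ℝ)..1, HH t * t ^ m =
      ∑ k ∈ Finset.range (N + 1), ∫ t in (a k)..(a (k + 1)), HH t * t ^ m := by
    rw [intervalIntegral.sum_integral_adjacent_intervals hgint, ha0, ha1]
  have hsum0 : I0 = ∑ k ∈ Finset.range (N + 1), ∫ t in (a k)..(a (k + 1)), HH t := by
    have hint0 : ∀ k < N + 1, IntervalIntegrable HH volume (a k) (a (k + 1)) :=
      fun k hk => cell_integrable hk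
    rw [intervalIntegral.sum_integral_adjacent_intervals hint0, ha0, ha1]
  rw [hsum1, Finset.sum_div, ← Finset.sum_sub_distrib]
  refine (Finset.abs_sum_le_sum_abs _ _).trans ?_
  rw [hsum0, Finset.mul_sum]
  apply Finset.sum_le_sum
  intro k hk
  rw [Finset.mem_range] at hk
  obtain ⟨h0, h1, h2⟩ := cell_le (N := N) (k := k) hk
  have h1' : a k < a (k + 1) := h1
  set p : ℝ := ((k + 1 + j).choose m : ℝ) / ((N : ℝ) + 1) ^ m with hp
  have hdiff : (1 / ((N : ℝ) + 1) ^ (2 * j + 2)) * (cc N k * ((k + 1 + j).choose m : ℝ)) -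
      (∫ t in (a k)..(a (k + 1)), HH t * t ^ m) / m.factorial =
      ∫ t in (a k)..(a (k + 1)), HH t * (p - t ^ m / m.factorial) := by
    have e1 : ∫ t in (a k)..(a (k + 1)), HH t * (p - t ^ m / m.factorial) =
        ∫ t in (a k)..(a (k + 1)), (HH t * p - (HH t * t ^ m) / m.factorial) := by
      apply intervalIntegral.integral_congr
      intro t _
      simp only
      ring
    rw [e1, intervalIntegral.integral_sub ((cell_integrable hk).mul_const p)
      ((hgint k hk).div_const _), intervalIntegral.integral_mul_const,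
      intervalIntegral.integral_div]
    congr 1
    unfold cc
    rw [hp]
    have e2 : ((N : ℝ) + 1) ^ (2 * j + 2) = ((N : ℝ) + 1) * ((N : ℝ) + 1) ^ m := by
      rw [hm]; ring
    rw [e2]
    have : ((N : ℝ) + 1) ^ m ≠ 0 := by positivity
    field_simp
  rw [hdiff]
  have hcell := cell_integrable (N := N) (k := k) hk
  calc |∫ t in (a k)..(a (k + 1)), HH t * (p - t ^ m / m.factorial)|
      ≤ ∫ t in (a k)..(a (k + 1)), |HH t * (p - t ^ m / m.factorial)| :=
        intervalIntegral.abs_integral_le_integral_abs h1'.le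
    _ ≤ ∫ t in (a k)..(a (k + 1)), Cj * (1 / ((N : ℝ) + 1)) * HH t := by
        apply intervalIntegral.integral_mono_on_of_le_Ioo h1'.le
        · exact (hcell.mul_continuousOn (by fun_prop)).abs
        · exact hcell.const_mul _
        · intro t ht
          have hpos : 0 < HH t := HH_pos (lt_of_le_of_lt h0 ht.1) (lt_of_lt_of_le ht.2 h2)
          rw [abs_mul, abs_of_pos hpos, mul_comm]
          apply mul_le_mul_of_nonneg_right _ hpos.le
          exact binom_approx j N k hk ht.1.le ht.2.le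
    _ = Cj * (1 / ((N : ℝ) + 1)) * ∫ t in (a k)..(a (k + 1)), HH t := by
        rw [intervalIntegral.integral_const_mul]

/-- The value of the limit. -/
theorem moment_value (j : ℕ) :
    4 ^ (j + 1) * ((∫ t in (0 : ℝ)..1, HH t * t ^ (2 * j + 1)) / (2 * j + 1).factorial) =
      Real.pi * √Real.pi * (√((j + 1 : ℕ) : ℝ) / ((j + 1).factorial : ℝ) ^ 2) := by
  rw [intervalIntegral.integral_of_le zero_le_one, integral_Ioc_eq_integral_Ioo,
    (HH_moment j).2, II_eq]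
  have h1 : (2 * (j + 1)).factorial = (2 * j + 2) * (2 * j + 1).factorial := by
    have : 2 * (j + 1) = (2 * j + 1) + 1 := by ring
    rw [this, Nat.factorial_succ]
  rw [h1]
  have hs : √((j + 1 : ℕ) : ℝ) * √((j + 1 : ℕ) : ℝ) = ((j + 1 : ℕ) : ℝ) :=
    Real.mul_self_sqrt (by positivity)
  have hspos : 0 < √((j + 1 : ℕ) : ℝ) := Real.sqrt_pos.2 (by positivity)
  set s := √((j + 1 : ℕ) : ℝ) with hs'
  have hf1 : ((2 * j + 1).factorial : ℝ) ≠ 0 := by positivity
  have hf2 : ((j + 1).factorial : ℝ) ≠ 0 := by positivity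
  have h4 : (4 : ℝ) ^ (j + 1) ≠ 0 := by positivity
  push_cast at hs ⊢
  have hj : (2 * (j : ℝ) + 2) = 2 * (s * s) := by rw [hs]; ring
  rw [hj]
  field_simp

end Pool.Agent.Lib.MP_21a1fd_an
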